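import Pool.Agent.W78.EC.Defs

/-!
Project EC (helper78): statements of the intermediate steps.
-/

set_option autoImplicit false

namespace Pool.Agent.W78.EC

open Finset Filter
open Pool.Agent.H376R2.MR
open Pool.Agent.W78.GA

/-! ### Part P -/

/-- characters of the multiplicative group modulo `M`, trivial on the units of `ℤ[i]` -/
structure HCh (M : ℕ) (φ : Gi → ℂ) : Prop where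
  per : ∀ z z' : Gi, (M : ℤ) ∣ z.re - z'.re → (M : ℤ) ∣ z.im - z'.im → φ z = φ z'
  mul : ∀ z z' : Gi, φ (z * z') = φ z * φ z'
  one : φ 1 = 1
  unit : φ ⟨0, 1⟩ = 1
  ne : ∀ z, φ z ≠ 0 ↔ IsCoprime z (M : Gi)

/-- the coefficients of the L-function: `(1/4) ∑_{nm z = n} φ(z)` -/
noncomputable def aL (φ : Gi → ℂ) (n : ℕ) : ℂ :=
  (∑ z ∈ (ball 0 1 n).filter (fun z => nm z = n), φ z) / 4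

/-- THETA: theta series in residue classes near `0` -/
def S_THETA : Prop := ∀ (M : ℕ) (r : ℤ), 1 ≤ M → ∃ c C : ℝ, 0 < c ∧ 0 < C ∧ ∀ t : ℝ, 0 < t → t ≤ 1 →
  |(∑' x : ℤ, Real.exp (-(t * (r + M * x : ℝ) ^ 2))) - Real.sqrt (Real.pi / t) / M| ≤
    C * Real.exp (-(c / t)) / Real.sqrt t

/-- LCON: entire continuation of the L-functions -/
def S_LCON : Prop := ∀ (M : ℕ) (φ : Gi → ℂ), 1 ≤ M → HCh M φ →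
  ((∃ z, φ z ≠ 0 ∧ φ z ≠ 1) → ∃ g : ℂ → ℂ, Differentiable ℂ g ∧
    ∀ s : ℂ, 1 < s.re → LSeriesSummable (aL φ) s ∧ g s = LSeries (aL φ) s) ∧
  ((∀ z, φ z ≠ 0 → φ z = 1) → ∃ g : ℂ → ℂ, Differentiable ℂ g ∧ g 1 ≠ 0 ∧
    ∀ s : ℂ, 1 < s.re → LSeriesSummable (aL φ) s ∧ g s = (s - 1) * LSeries (aL φ) s)

/-- LNV: the L-functions do not vanish on the line `Re s = 1` -/
def S_LNV : Prop := ∀ (M : ℕ) (φ : Gi → ℂ), 1 ≤ M → HCh M φ → ∀ g : ℂ → ℂ, Differentiable ℂ g →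
  (∃ z, φ z ≠ 0 ∧ φ z ≠ 1) ∧ (∀ s : ℂ, 1 < s.re → g s = LSeries (aL φ) s) ∨
  (∀ z, φ z ≠ 0 → φ z = 1) ∧ (∀ s : ℂ, 1 < s.re → g s = (s - 1) * LSeries (aL φ) s) →
  ∀ t : ℝ, g (1 + t * Complex.I) ≠ 0

/-- LMEAN: mean values of the Liouville function times a character -/
def S_LMEAN : Prop := ∀ (M : ℕ) (φ : Gi → ℂ), 1 ≤ M → HCh M φ → ∀ ε : ℝ, 0 < ε → ∃ X₀ : ℝ,
  ∀ X : ℝ, X₀ ≤ X → ‖∑ z ∈ ball 0 1 X, (gl z : ℂ) * φ z‖ ≤ ε * X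

/-! ### Part B -/

/-- SWC: the sums of primitive characters of small conductor over the primes `1 mod 4` -/
def S_SWC : Prop := (∀ A B : ℕ, ∃ C : ℝ, ∃ Q₀ : ℕ, ∀ Q : ℕ, Q₀ ≤ Q → ∀ t : ℕ, Q ≤ t → t ≤ 2 * Q →
    ∀ q : ℕ, 2 ≤ q → q ≠ 4 → (q : ℝ) ≤ Real.log Q ^ B → ∀ χ : DirichletCharacter ℂ q,
    χ.IsPrimitive → ‖∑ m ∈ Ioc Q t, (th Q m : ℂ) * χ (m : ZMod q)‖ ≤ C * Q / Real.log Q ^ A) ∧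
  ∀ A : ℕ, ∃ C : ℝ, ∃ Q₀ : ℕ, ∀ Q : ℕ, Q₀ ≤ Q → ∀ t : ℕ, Q ≤ t → t ≤ 2 * Q →
    |∑ m ∈ Ioc Q t, th Q m - ((t : ℝ) - Q) / 2| ≤ C * Q / Real.log Q ^ A

/-- LS4: fourth moment of the sums over primes for primitive characters of large conductor -/
def S_LS4 : Prop := ∀ C₀ A : ℕ, ∃ (B : ℕ) (C : ℝ) (Q₀ : ℕ), ∀ Q : ℕ, Q₀ ≤ Q → ∀ t : ℕ, Q ≤ t →
  t ≤ 2 * Q → ∑ q ∈ (Icc 1 (C₀ * Q)).filter (fun q : ℕ => Real.log Q ^ B < (q : ℝ)),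
    1 / (Nat.totient q : ℝ) *
    (open scoped Classical in
      ∑ χ ∈ (univ : Finset (DirichletCharacter ℂ q)).filter (fun χ => χ.IsPrimitive),
      ‖∑ m ∈ Ioc Q t, (th Q m : ℂ) * χ (m : ZMod q)‖ ^ 4) ≤ C * (Q : ℝ) ^ 4 / Real.log Q ^ A

/-- ABEL: summation by parts in two variables -/
def S_ABEL : Prop := ∀ (Q : ℕ) (a Ψ : ℕ → ℕ → ℝ) (L : ℝ), 1 ≤ Q → 0 ≤ L →
  (∀ m n, m ∈ Ioc Q (2 * Q) → n ∈ Ioc Q (2 * Q) → |Ψ m n| ≤ L ∧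
    |Ψ (m + 1) n - Ψ m n| ≤ L / Q ∧ |Ψ m (n + 1) - Ψ m n| ≤ L / Q ∧
    |Ψ (m + 1) (n + 1) - Ψ (m + 1) n - Ψ m (n + 1) + Ψ m n| ≤ L / (Q : ℝ) ^ 2) →
  ∀ E : ℕ → ℕ → ℝ, (∀ t u, E t u = ∑ m ∈ Ioc Q t, ∑ n ∈ Ioc Q u, a m n) →
  |∑ m ∈ Ioc Q (2 * Q), ∑ n ∈ Ioc Q (2 * Q), a m n * Ψ m n| ≤
    L * (|E (2 * Q) (2 * Q)| +
      (∑ t ∈ Ioc Q (2 * Q), (|E t (2 * Q)| + |E (2 * Q) t|)) / Q +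
      (∑ t ∈ Ioc Q (2 * Q), ∑ u ∈ Ioc Q (2 * Q), |E t u|) / (Q : ℝ) ^ 2)

/-- GVL: `Gv` as a sum over pairs of integers -/
def S_GVL : Prop := ∀ (Q : ℕ) (X : ℝ) (w₁ w₂ : Gi), 1 ≤ X → prim w₁ → prim w₂ → 0 < dt w₁ w₂ →
  ∃ c : ℕ, c < (dt w₁ w₂).toNat ∧ Nat.Coprime c (dt w₁ w₂).toNat ∧
    dt w₁ w₂ ∣ w₂.re - c * w₁.re ∧ dt w₁ w₂ ∣ w₂.im - c * w₁.im ∧
    (xi w₁ w₂ : ℝ) = ch4 (dt w₁ w₂).toNat c ∧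
    Gv Q X w₁ w₂ = ∑ m₁ ∈ Ioc Q (2 * Q), ∑ m₂ ∈ Ioc Q (2 * Q),
      (if m₂ ≡ c * m₁ [MOD (dt w₁ w₂).toNat] then th Q m₁ * th Q m₂ else 0) *
      psi (nm ((m₂ : Gi) * w₁ - (m₁ : Gi) * w₂) / ((dt w₁ w₂ : ℝ) ^ 2 * X))

/-- PSID: differences of the weight -/
def S_PSID : Prop := ∃ C : ℝ, 0 < C ∧ ∀ (Q : ℕ) (X L : ℝ) (w₁ w₂ : Gi), 1 ≤ Q → 1 ≤ X → 1 ≤ L →
  (nm w₁ : ℝ) ≤ X → (nm w₂ : ℝ) ≤ X → (Q : ℝ) / L ≤ (dt w₁ w₂ : ℝ) → ∀ Ψ : ℕ → ℕ → ℝ,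
  (∀ m₁ m₂, Ψ m₁ m₂ = psi (nm ((m₂ : Gi) * w₁ - (m₁ : Gi) * w₂) / ((dt w₁ w₂ : ℝ) ^ 2 * X))) →
  ∀ m n, m ∈ Ioc Q (2 * Q) → n ∈ Ioc Q (2 * Q) → |Ψ m n| ≤ C * L ^ 4 ∧
    |Ψ (m + 1) n - Ψ m n| ≤ C * L ^ 4 / Q ∧ |Ψ m (n + 1) - Ψ m n| ≤ C * L ^ 4 / Q ∧
    |Ψ (m + 1) (n + 1) - Ψ (m + 1) n - Ψ m (n + 1) + Ψ m n| ≤ C * L ^ 4 / (Q : ℝ) ^ 2

open scoped Classical in
/-- MULT: multiplicity of the pair `(D, c)` -/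
def S_MULT : Prop := ∀ (K : ℕ) (κ : ℝ) (Q : ℕ) (X : ℝ) (D : ℕ) (c : ℤ), 1 ≤ K → 0 < κ → 1 ≤ Q →
  2 * (K * Q : ℝ) ≤ X → 1 ≤ D → ∀ e ∈ good K κ Q X,
  (((cone X e.1 e.2 ×ˢ cone X e.1 e.2).filter (fun w => dt w.1 w.2 = D ∧
    (D : ℤ) ∣ w.2.re - c * w.1.re ∧ (D : ℤ) ∣ w.2.im - c * w.1.im)).card : ℝ) ≤
    (4 * (K * Q / κ) / D + 1) ^ 4

/-- DTB: the determinants in a cone over a good edge are bounded, and so is the number of points -/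
def S_DTB : Prop := ∀ (K : ℕ) (κ : ℝ) (Q : ℕ) (X : ℝ), 1 ≤ K → 0 < κ → 1 ≤ Q →
  2 * (K * Q : ℝ) ≤ X → ∀ e ∈ good K κ Q X, ((cone X e.1 e.2).card : ℝ) ≤ 4 * (K * Q / κ + 1) ∧
    ∀ v ∈ cone X e.1 e.2, ∃ x y : ℕ, 1 ≤ x ∧ 1 ≤ y ∧ (x : ℝ) ^ 2 ≤ K * Q / κ ∧
      (y : ℝ) ^ 2 ≤ K * Q / κ ∧ v = (x : Gi) * e.1 + (y : Gi) * e.2

/-- LN: few points on a line -/
def S_LN : Prop := ∀ s : ℝ, 0 < s → ∃ C : ℕ, ∀ (X : ℝ) (w : Gi) (m : ℤ), 1 ≤ X → prim w →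
  s * X < (nm w : ℝ) → ((ball 0 1 (4 * X)).filter (fun z => dt w z = m)).card ≤ C

/-- JB: bound for the main term -/
def S_JB : Prop := ∀ s : ℝ, 0 < s → ∃ C : ℝ, ∀ (Q : ℕ) (X : ℝ) (w₁ w₂ : Gi), 1 ≤ Q → 1 ≤ X →
  s * X < (nm w₁ : ℝ) → (nm w₁ : ℝ) ≤ X → s * X < (nm w₂ : ℝ) → (nm w₂ : ℝ) ≤ X → 0 < dt w₁ w₂ →
  |G0 Q X w₁ w₂| ≤ C * Q * ((dt w₁ w₂ : ℝ) / (Nat.totient (dt w₁ w₂).toNat : ℝ))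

/-- the smooth part of `G0` -/
noncomputable def kk (Q : ℕ) (X : ℝ) (w₁ w₂ : Gi) : ℝ :=
  1 / (4 * (dt w₁ w₂ : ℝ)) * ∑ m₁ ∈ Ioc Q (2 * Q), ∑ m₂ ∈ Ioc Q (2 * Q),
      psi (nm ((m₂ : Gi) * w₁ - (m₁ : Gi) * w₂) / ((dt w₁ w₂ : ℝ) ^ 2 * X))

/-- JV: `kk` is almost constant on small cells -/
def S_JV : Prop := ∀ (C₀ s δ ε : ℝ), 0 < C₀ → 0 < s → 0 < δ → 0 < ε → ∃ ε₁ : ℝ, 0 < ε₁ ∧ ∀ (Q : ℕ)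
  (X : ℝ) (w₁ w₂ w₁' w₂' : Gi), 1 ≤ Q → 1 ≤ ε₁ * X → Q ≤ ε₁ * X →
  (∀ w ∈ ({w₁, w₂, w₁', w₂'} : Set Gi), s * X < (nm w : ℝ) ∧ (nm w : ℝ) ≤ X) →
  δ * Q ≤ (dt w₁ w₂ : ℝ) → (dt w₁ w₂ : ℝ) ≤ C₀ * Q → δ * Q ≤ (dt w₁' w₂' : ℝ) →
  (dt w₁' w₂' : ℝ) ≤ C₀ * Q → |(nm w₁ : ℝ) - nm w₁'| ≤ ε₁ * X → |(nm w₂ : ℝ) - nm w₂'| ≤ ε₁ * X →
  0 < ip w₁ w₂ → 0 < ip w₁' w₂' →
  |ang w₁ - ang w₁'| ≤ ε₁ * Q / X → |ang w₂ - ang w₂'| ≤ ε₁ * Q / X →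
  |kk Q X w₁ w₂ - kk Q X w₁' w₂'| ≤ ε * Q

/-! ### Part D -/

open scoped Classical in
/-- entropy (not normalised) of the function `D` on the finite set `s` with weights `w` -/
noncomputable def ent {Ω A : Type} (s : Finset Ω) (w : Ω → ℝ) (D : Ω → A) : ℝ :=
  ∑ a ∈ s.image D, Real.negMulLog (∑ ω ∈ s.filter (fun ω => D ω = a), w ω)

/-- conditional entropy (not normalised) of `D` given `Y` -/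
noncomputable def cE {Ω A B : Type} (s : Finset Ω) (w : Ω → ℝ) (D : Ω → A) (Y : Ω → B) : ℝ :=
  ent s w (fun ω => (D ω, Y ω)) - ent s w Y

/-- CE: elementary properties of the conditional entropy -/
def S_CE : Prop := ∀ (Ω A B C : Type) (s : Finset Ω) (w : Ω → ℝ) (D : Ω → A) (Y : Ω → B)
  (Z : Ω → C), (∀ ω ∈ s, 0 ≤ w ω) →
  0 ≤ cE s w D Y ∧
  cE s w D (fun ω => (Y ω, Z ω)) ≤ cE s w D Y ∧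
  cE s w (fun ω => (D ω, Z ω)) Y = cE s w Z Y + cE s w D (fun ω => (Z ω, Y ω)) ∧
  (∀ φ : A → B → C, (∀ ω ∈ s, Z ω = φ (D ω) (Y ω)) → cE s w Z Y ≤ cE s w D Y) ∧
  (∀ φ : B → C, (∀ ω ∈ s, Z ω = φ (Y ω)) → cE s w D Y ≤ cE s w D Z) ∧
  (∀ n : ℕ, 1 ≤ n → (∃ t : Finset A, t.card ≤ n ∧ ∀ ω ∈ s, D ω ∈ t) →
    cE s w D Y ≤ (∑ ω ∈ s, w ω) * Real.log n) ∧
  (∀ ρ : ℝ, 0 < ρ → (∀ a : A, (open scoped Classical in ∑ ω ∈ s.filter (fun ω => D ω = a), w ω) ≤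
      ρ * ∑ ω ∈ s, w ω) → (∑ ω ∈ s, w ω) * Real.log (1 / ρ) ≤ cE s w D (fun _ => ())) ∧
  (∀ q : A → ℝ, (∀ a, 0 < q a) → (open scoped Classical in ∑ a ∈ s.image D, q a) ≤ 1 →
    cE s w D (fun _ => ()) ≤ ∑ ω ∈ s, w ω * (-Real.log (q (D ω))))

/-- TUP: subadditivity for lists of variable length -/
def S_TUP : Prop := ∀ (Ω Ω' Q D Y Y' : Type) (s : Finset Ω) (s' : Finset Ω') (w : Ω → ℝ)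
  (w' : Ω' → ℝ) (par : Ω' → Ω) (ix : Ω' → ℕ) (N : Q → ℕ) (Qf : Ω → Q) (Yf : Ω → Y) (Df : Ω' → D)
  (Yf' : Ω' → Y') (ch : Ω → ℕ → Ω') (Φ : Q → ℕ → Y → Y'),
  (∀ ω ∈ s, 0 ≤ w ω) → (∀ c ∈ s', par c ∈ s ∧ ix c < N (Qf (par c)) ∧ ch (par c) (ix c) = c ∧
    w' c = w (par c)) →
  (∀ ω ∈ s, ∀ j < N (Qf ω), ch ω j ∈ s' ∧ par (ch ω j) = ω ∧ ix (ch ω j) = j) →
  (∀ c ∈ s', Yf' c = Φ (Qf (par c)) (ix c) (Yf (par c))) →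
  cE s w (fun ω => (List.range (N (Qf ω))).map (fun j => Df (ch ω j))) (fun ω => (Qf ω, Yf ω)) ≤
    cE s' w' Df Yf'

/-- number of nodes -/
def Tr.size {A : Type} : Tr A → ℕ
  | .leaf => 0
  | .node _ l r => Tr.size l + Tr.size r + 1

/-- CODE: the entropy of a random tree is at most a constant times the mean size -/
def S_CODE : Prop := ∀ (A : Type) [Fintype A], ∃ C : ℝ, 0 < C ∧ ∀ (Ω : Type) (s : Finset Ω)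
  (w : Ω → ℝ) (T : Ω → Tr A), (∀ ω ∈ s, 0 ≤ w ω) →
  cE s w T (fun _ => ()) ≤ C * ∑ ω ∈ s, w ω * (1 + (T ω).size)

/-- the residues modulo the primes of `P` as one function -/
def rsf {Ω α : Type} [Inhabited α] (P : Finset ℕ) (Y : Ω → ℕ → α) (ω : Ω) : ℕ → α :=
  fun p => if p ∈ P then Y ω p else default

/-- DV: the variational inequality for the entropy and the exponential moment of a sum of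
independent bounded functions -/
def S_DV : Prop := ∀ (Ω D α : Type) [Inhabited α] (s : Finset Ω) (w : Ω → ℝ) (Df : Ω → D)
  (P : Finset ℕ) (Y : Ω → ℕ → α) (U : ℕ → Finset α) (a : ℕ → ℝ) (ζ : ℕ → D → α → ℝ) (B τ : ℝ),
  (∀ ω ∈ s, 0 ≤ w ω) → (∀ ω ∈ s, ∀ p ∈ P, Y ω p ∈ U p) → (∀ p d y, |ζ p d y| ≤ B) → 0 < τ →
  ∑ ω ∈ s, w ω * |∑ p ∈ P, a p * (ζ p (Df ω) (Y ω p) -
      (∑ y ∈ U p, ζ p (Df ω) y) / ((U p).card : ℝ))| ≤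
    1 / τ * ((∑ ω ∈ s, w ω) * (∑ p ∈ P, Real.log (U p).card + Real.log 2) -
      cE s w (rsf P Y) Df) + (∑ ω ∈ s, w ω) * (τ * (2 * B ^ 2) * ∑ p ∈ P, a p ^ 2)

/-- the edges at the leaves of a tree -/
def lv {A : Type} : Tr A → Gi → Gi → List (Gi × Gi)
  | .leaf, a, b => [(a, b)]
  | .node _ l r, a, b => lv l a (a + b) ++ lv r (a + b) b

/-- TREE: structure of the trees -/
def S_TREE : Prop := ∀ A : Type,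
  (∀ (lab : Gi → A) (Y Y' : ℝ) (e : Gi × Gi), 2 ≤ Y → Y ≤ Y' → e ∈ edge 0 1 Y →
    (lv (TT lab Y' e) e.1 e.2).Nodup ∧ (∀ f ∈ lv (TT lab Y' e) e.1 e.2, f ∈ edge 0 1 Y') ∧
    (TT lab Y' e).size + 1 = (lv (TT lab Y' e) e.1 e.2).length) ∧
  (∀ (lab : Gi → A) (Y Y' : ℝ), 2 ≤ Y → Y ≤ Y' → ∀ f ∈ edge 0 1 Y', ∃! e : Gi × Gi,
    e ∈ edge 0 1 Y ∧ f ∈ lv (TT lab Y' e) e.1 e.2) ∧
  (∃ Φ : Tr A → List (Tr A) → Tr A, ∀ (lab : Gi → A) (Y Y' X : ℝ) (e : Gi × Gi), 2 ≤ Y → Y ≤ Y' →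
    Y' ≤ X → e ∈ edge 0 1 Y →
    TT lab X e = Φ (TT lab Y' e) ((lv (TT lab Y' e) e.1 e.2).map (TT lab X))) ∧
  (∃ Ψ : Tr A → ℕ → ℕ → ℕ × ℕ × ℕ × ℕ → ℕ × ℕ × ℕ × ℕ, ∀ (T : Tr A) (e f : Gi × Gi) (j p : ℕ),
    1 ≤ p → (lv T e.1 e.2)[j]? = some f → res p f = Ψ T j p (res p e))

/-- ECNT: the number of Farey edges -/
def S_ECNT : Prop := ∃ c C Y₀ : ℝ, 0 < c ∧ ∀ Y : ℝ, Y₀ ≤ Y → c * Y ≤ ((edge 0 1 Y).card : ℝ) ∧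
  ((edge 0 1 Y).card : ℝ) ≤ C * Y

/-- PCNT: the number of primes -/
def S_PCNT : Prop := ∃ c C : ℝ, 0 < c ∧ ∃ Q₀ : ℕ, ∀ Q : ℕ, Q₀ ≤ Q →
  c * Q / Real.log Q ≤ ((PQ Q).card : ℝ) ∧ ((PQ Q).card : ℝ) ≤ C * Q / Real.log Q ∧
  c * Q ≤ ∑ p ∈ PQ Q, Real.log p ∧ ∑ p ∈ PQ Q, Real.log p ≤ C * Q

open scoped Classical in
/-- RESC: upper bound for the number of edges with given residues -/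
def S_RESC : Prop := ∃ C : ℝ, 0 < C ∧ ∀ P : Finset ℕ, (∀ p ∈ P, p.Prime) → ∃ Y₀ : ℝ, ∀ Y : ℝ,
  Y₀ ≤ Y → ∀ y : ℕ → ℕ × ℕ × ℕ × ℕ,
    (((edge 0 1 Y).filter (fun e => ∀ p ∈ P, res p e = y p)).card : ℝ) ≤
      C * Y / ∏ p ∈ P, ((SL p).card : ℝ)

end Pool.Agent.W78.EC
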