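import Pool.Agent.W78.EC.Defs2

/-!
Project EC (helper78): the final statement.
-/

set_option autoImplicit false

namespace Pool.Agent.W78.EC

open Finset Filter
open Pool.Agent.H376R2.MR
open Pool.Agent.W78.GA

open scoped Classical in
/-- the pairs `(d, d')` of positive integers at most `N` such that `d d' - 1` is a square -/
noncomputable def SP (N : ℕ) : Finset (ℕ × ℕ) :=
  ((Icc 1 N) ×ˢ (Icc 1 N)).filter (fun p => ∃ n : ℕ, p.1 * p.2 = n ^ 2 + 1)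

/-- the weight `∑_{d d' = n^2+1} 1/max(d,d')` -/
noncomputable def wn (n : ℕ) : ℝ := ∑ d ∈ Nat.divisors (n ^ 2 + 1),
  1 / ((max d ((n ^ 2 + 1) / d) : ℕ) : ℝ)

open scoped Classical in
/-- SCNT: number of pairs in a box -/
def S_SCNT : Prop := ∃ C : ℝ, ∀ m M : ℕ, 1 ≤ m → m ≤ M →
  ((((Icc 1 m) ×ˢ (Icc 1 M)).filter (fun p => ∃ n : ℕ, p.1 * p.2 = n ^ 2 + 1)).card : ℝ) ≤
    C * Real.sqrt (m * M)

open scoped Classical in
/-- CORR: every factorisation `d d' = n^2+1`, `n ≥ 1`, comes from exactly four pairs of Gaussian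
integers of determinant `1` -/
def S_CORR : Prop := ∀ (X : ℝ) (F : ℕ → ℕ → ℝ), 1 ≤ X →
  ∑ e ∈ (dedge 0 1 X).filter (fun e => 0 < ip e.1 e.2), F (nm e.1) (nm e.2) =
    4 * ∑ p ∈ (SP ⌊X⌋₊).filter (fun p => p ≠ (1, 1)), F p.1 p.2

/-- SLOW: lower bound for the logarithmic weight of all pairs -/
def S_SLOW : Prop := ∃ c : ℝ, 0 < c ∧ ∀ N : ℕ, 2 ≤ N →
  c * Real.log N ≤ ∑ p ∈ SP N, 1 / (max p.1 p.2 : ℝ)

/-- FIN1: logarithmic means over the pairs -/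
def S_FIN1 : Prop := ∀ j : ℕ, Tendsto (fun N : ℕ =>
  (∑ p ∈ SP N, (lam p.1 : ℝ) ^ j * lam p.2 / (max p.1 p.2 : ℝ)) / Real.log N) atTop (nhds 0)

open scoped Classical in
/-- the final statement -/
def S_FINAL : Prop :=
  (∀ e₁ e₂ : ℤ, (e₁ = 1 ∨ e₁ = -1) → (e₂ = 1 ∨ e₂ = -1) → Tendsto (fun N : ℕ =>
    (∑ p ∈ (SP N).filter (fun p => lam p.1 = e₁ ∧ lam p.2 = e₂), 1 / (max p.1 p.2 : ℝ)) /
    ∑ p ∈ SP N, 1 / (max p.1 p.2 : ℝ)) atTop (nhds (1 / 4))) ∧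
  Tendsto (fun N : ℕ => (∑ n ∈ Icc 1 N, (lam (n ^ 2 + 1) : ℝ) * wn n) / Real.log N)
    atTop (nhds 0) ∧
  ∃ c : ℝ, 0 < c ∧ ∀ N : ℕ, 2 ≤ N → c * Real.log N ≤ ∑ n ∈ Icc 1 N, wn n

end Pool.Agent.W78.EC
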