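import Pool.Agent.W78.GA.Basic

/-!
Project EC (helper78): logarithmic averages of the Liouville function of `n^2+1`, weighted by the
factorisations `n^2+1 = d d'` with `d`, `d'` of size about `n`. Definitions and statements.
-/

set_option autoImplicit false

namespace Pool.Agent.W78.EC

open Finset Filter
open Pool.Agent.H376R2.MR
open Pool.Agent.W78.GA

/-- the Gaussian integers `x + i y`, `nm z = x^2 + y^2` -/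
abbrev Gi := Qd 0 1

/-! ### Cones over Farey edges -/

/-- primitive vectors of norm at most `X` strictly between `a` and `b` -/
noncomputable def cone (X : ℝ) (a b : Gi) : Finset Gi :=
  (pball 0 1 X).filter (fun z => 0 < dt a z ∧ 0 < dt z b)

open scoped Classical in
/-- the part of the cone with `s₁ X < nm z ≤ s₂ X` -/
noncomputable def cw (X s₁ s₂ : ℝ) (a b : Gi) : Finset Gi :=
  (cone X a b).filter (fun z => s₁ * X < (nm z : ℝ) ∧ (nm z : ℝ) ≤ s₂ * X)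

/-- the primes `p ≡ 1 mod 4` with `Q < p ≤ 2 Q` -/
def PQ (Q : ℕ) : Finset ℕ := (Ioc Q (2 * Q)).filter (fun p => p.Prime ∧ p % 4 = 1)

/-- `log m` if `m` is in `PQ Q`, otherwise `0` -/
noncomputable def th (Q : ℕ) (m : ℤ) : ℝ := if 0 < m ∧ m.toNat ∈ PQ Q then Real.log m else 0

open scoped Classical in
/-- the Farey edges `(a, b)` at the coarse level `Y = X/(K Q)` with `nm a, nm b > κ Y` -/
noncomputable def good (K : ℕ) (κ : ℝ) (Q : ℕ) (X : ℝ) : Finset (Gi × Gi) :=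
  (edge 0 1 (X / (K * Q))).filter
    (fun e => κ * (X / (K * Q)) < (nm e.1 : ℝ) ∧ κ * (X / (K * Q)) < (nm e.2 : ℝ))

/-! ### Part P: the prime number theorem -/

/-- PNTG: the Liouville function of the norm has mean value `0` on residue classes of `ℤ[i]` -/
def S_PNTG : Prop := ∀ (M : ℕ) (r₁ r₂ : ℤ), 1 ≤ M → ∀ ε : ℝ, 0 < ε → ∃ X₀ : ℝ, ∀ X : ℝ, X₀ ≤ X →
  |∑ z ∈ (ball 0 1 X).filter (fun z => (M : ℤ) ∣ z.re - r₁ ∧ (M : ℤ) ∣ z.im - r₂),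
    (gl z : ℝ)| ≤ ε * X

/-! ### Part M: Matomaki-Radziwill in residue classes -/

/-- sets of residue classes modulo `M`, invariant under multiplication by the integers prime to `M`
and congruent to `1` modulo `4` -/
structure Cls (M : ℕ) (S : Gi → Prop) : Prop where
  per : ∀ z z' : Gi, (M : ℤ) ∣ z.re - z'.re → (M : ℤ) ∣ z.im - z'.im → (S z ↔ S z')
  scal : ∀ (x : ℤ) (z : Gi), IsCoprime x (M : ℤ) → (4 : ℤ) ∣ x - 1 → (S ((x : Gi) * z) ↔ S z)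

/-- radial weights -/
structure Rw (Λ : ℝ) (wt : ℝ → ℝ) : Prop where
  bd : ∀ u, |wt u| ≤ 1
  lip : ∀ u v, |wt u - wt v| ≤ Λ * |u - v|
  supp : ∀ u, 1 ≤ |u| → wt u = 0

open scoped Classical in
/-- `∑_{z primitive, S z} λ(N z) wt(log(N z/Y))/N z (z/|z|)^k` -/
noncomputable def GS (wt : ℝ → ℝ) (S : Gi → Prop) (Y : ℝ) (k : ℤ) : ℂ :=
  DPG (pball 0 1 (Real.exp 1 * Y)) (fun z => if S z then
    (((gl z : ℝ) * (wt (Real.log (nm z) - Real.log Y) / nm z) : ℝ) : ℂ) else 0) k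

/-- MRW: the Matomaki-Radziwill theorem with a general radial weight, in residue classes -/
def S_MRW : Prop := ∀ (M : ℕ) (S : Gi → Prop), 1 ≤ M → 4 ∣ M → Cls M S → ∀ (Λ : ℝ) (wt : ℝ → ℝ),
  Rw Λ wt → ∀ η : ℝ, 0 < η → ∃ h : ℝ, 1 ≤ h ∧ ∃ Y₀ : ℝ, ∀ Y : ℝ, Y₀ ≤ Y →
    ∑ k ∈ (FK ⌊Y / h⌋₊).erase 0, ‖GS wt S Y k‖ ^ 2 ≤ η

/-- MW0: the frequency `0` -/
def S_MW0 : Prop := ∀ (M : ℕ) (S : Gi → Prop), 1 ≤ M → Cls M S → ∀ (Λ : ℝ) (wt : ℝ → ℝ),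
  Rw Λ wt → ∀ η : ℝ, 0 < η → ∃ Y₀ : ℝ, ∀ Y : ℝ, Y₀ ≤ Y → ‖GS wt S Y 0‖ ≤ η

/-- index of the arc of `z` in the division of the circle into `n` equal arcs -/
noncomputable def aix (n : ℕ) (z : Gi) : ℤ := ⌊(ang z + Real.pi) * n / (2 * Real.pi)⌋

open scoped Classical in
/-- MRS: the sums of the Liouville function of the norm over most pieces of thin sectors are small;
the number `n` of sectors is at most `X/H` -/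
def S_MRS : Prop := ∀ (M : ℕ) (S : Gi → Prop), 1 ≤ M → 4 ∣ M → Cls M S → ∀ σ : ℝ, 0 < σ → σ < 1 →
  ∀ ε : ℝ, 0 < ε → ∃ H : ℝ, 1 ≤ H ∧ ∃ X₀ : ℝ, ∀ X : ℝ, X₀ ≤ X → ∀ n : ℕ, 1 ≤ n → n * H ≤ X →
    ∑ j ∈ range (n + 1), |∑ z ∈ (pball 0 1 X).filter
      (fun z => σ * X < (nm z : ℝ) ∧ S z ∧ aix n z = (j : ℤ)), (gl z : ℝ)| ≤ ε * X

/-! ### Part B: the bilinear estimate for prime determinants -/

/-- `(1 + ch4 D c)/(4 φ(D))` is the density of the pairs `m₁, m₂` of primes `1 mod 4` (with weight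
`log m₁ log m₂`) with `m₂ ≡ c m₁ mod D` -/
noncomputable def ch4 (D c : ℕ) : ℝ := if 4 ∣ D then (if c % 4 = 1 then 1 else -1) else 0

/-- the error term -/
noncomputable def EE (Q D c t u : ℕ) : ℝ :=
  (∑ m₁ ∈ Ioc Q t, ∑ m₂ ∈ Ioc Q u, if m₂ ≡ c * m₁ [MOD D] then th Q m₁ * th Q m₂ else 0) -
    (1 + ch4 D c) / (4 * (Nat.totient D : ℝ)) * ((t : ℝ) - Q) * ((u : ℝ) - Q)

/-- LSV: pairs of primes in residue classes, on average -/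
def S_LSV : Prop := ∀ C₀ A : ℕ, ∃ C : ℝ, ∃ Q₀ : ℕ, ∀ Q : ℕ, Q₀ ≤ Q → ∀ t u : ℕ, Q ≤ t → t ≤ 2 * Q →
  Q ≤ u → u ≤ 2 * Q → ∑ D ∈ Icc 1 (C₀ * Q), ∑ c ∈ (range D).filter (fun c => Nat.Coprime c D),
    |EE Q D c t u| ≤ C * (Q : ℝ) ^ 3 / Real.log Q ^ A

/-- the weight of the vectors `v` -/
noncomputable def psi (x : ℝ) : ℝ := (max 0 (4 - x)) ^ 2

/-- `∑_v psi(nm v/X) θ(dt v w₁) θ(dt v w₂)` -/
noncomputable def Gv (Q : ℕ) (X : ℝ) (w₁ w₂ : Gi) : ℝ :=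
  ∑ v ∈ ball 0 1 (4 * X), psi (nm v / X) * th Q (dt v w₁) * th Q (dt v w₂)

/-- value of `ch4` for the pair `w₁, w₂` -/
def xi (w₁ w₂ : Gi) : ℤ := if (4 : ℤ) ∣ dt w₁ w₂ then
  (if (4 : ℤ) ∣ w₂.re - w₁.re ∧ (4 : ℤ) ∣ w₂.im - w₁.im then 1 else -1) else 0

/-- main term of `Gv`, if `dt w₁ w₂ > 0` -/
noncomputable def G0 (Q : ℕ) (X : ℝ) (w₁ w₂ : Gi) : ℝ :=
  (1 + (xi w₁ w₂ : ℝ)) / (4 * (Nat.totient (dt w₁ w₂).toNat : ℝ)) *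
    ∑ m₁ ∈ Ioc Q (2 * Q), ∑ m₂ ∈ Ioc Q (2 * Q),
      psi (nm ((m₂ : Gi) * w₁ - (m₁ : Gi) * w₂) / ((dt w₁ w₂ : ℝ) ^ 2 * X))

open scoped Classical in
/-- GG0: `Gv = G0` on average over the pairs in a cone -/
def S_GG0 : Prop := ∀ (K : ℕ) (κ s₁ ε : ℝ), 1 ≤ K → 0 < κ → 0 < s₁ → 0 < ε → ∃ Q₀ : ℕ, ∀ Q : ℕ,
  Q₀ ≤ Q → ∀ X : ℝ, 2 * (K * Q : ℝ) ≤ X → ∀ e ∈ good K κ Q X,
    (∑ w₁ ∈ cw X s₁ 1 e.1 e.2, ∑ w₂ ∈ cw X s₁ 1 e.1 e.2,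
      if (Q : ℝ) / Real.log Q ^ 3 ≤ (dt w₁ w₂ : ℝ) then |Gv Q X w₁ w₂ - G0 Q X w₁ w₂| else 0) ≤
      ε * (Q : ℝ) ^ 3

open scoped Classical in
/-- BTM: the main term of the bilinear estimate -/
def S_BTM : Prop := ∀ (K : ℕ) (κ s₁ s₂ ε : ℝ), 1 ≤ K → 0 < κ → 0 < s₁ → s₁ < s₂ → s₂ ≤ 1 → 0 < ε →
  ∃ Q₀ : ℕ, ∀ Q : ℕ, Q₀ ≤ Q → ∃ X₀ : ℝ, ∀ X : ℝ, X₀ ≤ X →
    |∑ e ∈ good K κ Q X, ∑ w₁ ∈ cw X s₁ s₂ e.1 e.2, ∑ w₂ ∈ cw X s₁ s₂ e.1 e.2,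
      if (Q : ℝ) / Real.log Q ^ 3 ≤ (dt w₁ w₂ : ℝ) then (gl w₁ : ℝ) * gl w₂ * G0 Q X w₁ w₂ else 0| ≤
      ε * X * (Q : ℝ) ^ 2

/-- BT: the bilinear estimate for prime determinants in the cones -/
def S_BT : Prop := ∀ (K : ℕ) (κ s s₁ s₂ ε : ℝ), 1 ≤ K → 0 < κ → 0 < s → 0 < s₁ → s₁ < s₂ →
  s₂ ≤ 1 → 0 < ε → ∃ Q₀ : ℕ, ∀ Q : ℕ, Q₀ ≤ Q → ∃ X₀ : ℝ, ∀ X : ℝ, X₀ ≤ X → ∀ α : Gi → ℝ,
    (∀ z, |α z| ≤ 1) → (∀ z, α z ≠ 0 → s * X < (nm z : ℝ)) →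
    |∑ e ∈ good K κ Q X, ∑ v ∈ cone X e.1 e.2, ∑ w ∈ cw X s₁ s₂ e.1 e.2,
      α v * gl w * th Q (dt v w)| ≤ ε * X * Q

/-! ### Part D: decoupling by the entropy decrement method -/

/-- binary trees with labels at the inner nodes -/
inductive Tr (A : Type) where
  | leaf : Tr A
  | node : A → Tr A → Tr A → Tr A

/-- the tree of the vectors of norm at most `X` in the cone over `(a, b)`, cut off at depth `n` -/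
noncomputable def tr {A : Type} (lab : Gi → A) (X : ℝ) : ℕ → Gi → Gi → Tr A
  | 0, _, _ => .leaf
  | n + 1, a, b => if (nm (a + b) : ℝ) ≤ X then
      .node (lab (a + b)) (tr lab X n a (a + b)) (tr lab X n (a + b) b) else .leaf

/-- the whole tree -/
noncomputable def TT {A : Type} (lab : Gi → A) (X : ℝ) (e : Gi × Gi) : Tr A :=
  tr lab X (⌊X⌋₊ + 1) e.1 e.2

/-- residue modulo `p` as a natural number -/
def rs (p : ℕ) (x : ℤ) : ℕ := (x % (p : ℤ)).toNat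

/-- the residues of an edge -/
def res (p : ℕ) (e : Gi × Gi) : ℕ × ℕ × ℕ × ℕ :=
  (rs p e.1.re, rs p e.1.im, rs p e.2.re, rs p e.2.im)

/-- the matrices of determinant `1` modulo `p` -/
def SL (p : ℕ) : Finset (ℕ × ℕ × ℕ × ℕ) :=
  (range p ×ˢ range p ×ˢ range p ×ˢ range p).filter
    (fun y => (p : ℤ) ∣ (y.1 : ℤ) * y.2.2.2 - y.2.1 * y.2.2.1 - 1)

/-- average over `SL p` -/
noncomputable def av {A : Type} (p : ℕ) (ζ : Tr A → ℕ × ℕ × ℕ × ℕ → ℝ) (T : Tr A) : ℝ :=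
  (∑ y ∈ SL p, ζ T y) / ((SL p).card : ℝ)

/-- DCP: decoupling. For some `Q` in a bounded range, functions of the tree and of the residues
modulo `p`, `p ∈ PQ Q`, may be replaced by their averages over the residues. -/
def S_DCP : Prop := ∀ (A : Type) [Fintype A] (K : ℕ) (B ε : ℝ), 1 ≤ K → 0 < ε → ∀ Q₁ : ℕ,
  ∃ Q₂ X₀ N₀ : ℕ, ∀ N : ℕ, N₀ ≤ N → ∀ lab : ℕ → Gi → A, ∃ Q : ℕ, Q₁ ≤ Q ∧ Q ≤ Q₂ ∧
    ∀ ζ : ℕ → Tr A → ℕ × ℕ × ℕ × ℕ → ℝ, (∀ p T y, |ζ p T y| ≤ B) →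
    ∑ X ∈ Ioc X₀ N, 1 / (X : ℝ) ^ 2 * ∑ e ∈ edge 0 1 ((X : ℝ) / (K * Q)),
      |∑ p ∈ PQ Q, Real.log p * (ζ p (TT (lab X) X e) (res p e) - av p (ζ p) (TT (lab X) X e))| ≤
      ε * Real.log N

/-! ### Part F: dilation by prime elements -/

open scoped Classical in
/-- pairs of determinant `1` with positive `ip` and norms in given windows, weighted by the Liouville
function -/
noncomputable def AA (j : ℕ) (s₁ s₂ s₃ s₄ : ℝ) (X : ℝ) : ℝ :=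
  ∑ e ∈ (dedge 0 1 X).filter (fun e => 0 < ip e.1 e.2 ∧ s₁ * X < (nm e.1 : ℝ) ∧ (nm e.1 : ℝ) ≤ s₂ * X ∧
    s₃ * X < (nm e.2 : ℝ) ∧ (nm e.2 : ℝ) ≤ s₄ * X), (gl e.1 : ℝ) ^ j * gl e.2

/-- DIL: invariance under dilation of the logarithmic average -/
def S_DIL : Prop := ∀ (j : ℕ) (s₁ s₂ s₃ s₄ : ℝ), 0 < s₁ → s₁ < s₂ → s₂ ≤ 1 → 0 < s₃ → s₃ < s₄ →
  s₄ ≤ 1 → ∃ C : ℝ, ∀ p N : ℕ, 1 ≤ p → 1 ≤ N →
    |∑ X ∈ Icc 1 N, (p : ℝ) / (X : ℝ) ^ 2 * AA j s₁ s₂ s₃ s₄ ((X : ℝ) / p) -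
      ∑ X ∈ Icc 1 N, 1 / (X : ℝ) ^ 2 * AA j s₁ s₂ s₃ s₄ X| ≤ C * (1 + Real.log p)

/-- the pair is in the cone over a good edge after multiplication by `π` -/
def InG (K : ℕ) (κ : ℝ) (Q : ℕ) (X : ℝ) (π : Gi) (e : Gi × Gi) : Prop :=
  ∃ f ∈ good K κ Q X, π * e.1 ∈ cone X f.1 f.2 ∧ π * e.2 ∈ cone X f.1 f.2

open scoped Classical in
/-- LOSS: few pairs of determinant `1` with positive `ip` do not lie in the cone over a good edge after multiplication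
by a prime element `π` of norm `p` -/
def S_LOSS : Prop := ∀ s ε : ℝ, 0 < s → 0 < ε → ∃ K₀ : ℕ, ∀ K : ℕ, K₀ ≤ K → ∃ κ₀ : ℝ, 0 < κ₀ ∧
  ∀ κ : ℝ, 0 < κ → κ ≤ κ₀ → ∃ Q₀ : ℕ, ∀ Q : ℕ, Q₀ ≤ Q → ∃ X₀ : ℝ, ∀ X : ℝ, X₀ ≤ X →
    ∀ p ∈ PQ Q, ∀ π : Gi, nm π = p →
    (((dedge 0 1 (X / p)).filter (fun e => 0 < ip e.1 e.2 ∧ s * (X / p) < (nm e.1 : ℝ) ∧
      s * (X / p) < (nm e.2 : ℝ) ∧ ¬ InG K κ Q X π e)).card : ℝ) ≤ ε * (X / p)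

open scoped Classical in
/-- BIJ: the pairs of determinant `p` of vectors divisible by `π` in the cones -/
def S_BIJ : Prop := ∀ (K : ℕ) (κ : ℝ) (Q : ℕ) (X : ℝ) (p : ℕ) (π : Gi) (r : ℤ) (u v : Gi → ℝ),
  1 ≤ K → 0 < κ → 1 ≤ Q → 2 * (K * Q : ℝ) ≤ X → p ∈ PQ Q → nm π = p → lat p r π →
  (p : ℤ) ∣ r ^ 2 + 1 →
  ∑ e ∈ good K κ Q X, ∑ v' ∈ cone X e.1 e.2, ∑ w' ∈ cone X e.1 e.2,
    (if dt v' w' = p ∧ lat p r v' then u v' * v w' else 0) =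
  ∑ e ∈ (dedge 0 1 (X / p)).filter (InG K κ Q X π), u (π * e.1) * v (π * e.2)

/-- the labelled points of a tree, in coordinates with respect to the root edge -/
def pts {A : Type} : Tr A → ℕ × ℕ → ℕ × ℕ → List ((ℕ × ℕ) × A)
  | .leaf, _, _ => []
  | .node x l r, a, b => pts l a (a + b) ++ ((a + b, x) :: pts r (a + b) b)

/-- PTS: the points of the tree are the vectors of the cone -/
def S_PTS : Prop := ∀ (A : Type) (lab : Gi → A) (Y X : ℝ) (e : Gi × Gi) (F : ℕ × ℕ → A → ℝ)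
  (F' : Gi → ℝ), 2 ≤ Y → Y ≤ X → e ∈ edge 0 1 Y →
  (∀ x : ℕ × ℕ, F' ((x.1 : Gi) * e.1 + (x.2 : Gi) * e.2) =
    F x (lab ((x.1 : Gi) * e.1 + (x.2 : Gi) * e.2))) →
  ((pts (TT lab X e) (1, 0) (0, 1)).map (fun q => F q.1 q.2)).sum = ∑ z ∈ cone X e.1 e.2, F' z

/-- determinant of coordinates -/
def cd (x y : ℕ × ℕ) : ℤ := (x.1 : ℤ) * y.2 - (y.1 : ℤ) * x.2

/-- the divisibility condition for the vector with coordinates `x` -/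
def dv (p : ℕ) (r : ℤ) (y : ℕ × ℕ × ℕ × ℕ) (x : ℕ × ℕ) : Prop :=
  (p : ℤ) ∣ x.1 * (y.1 + r * y.2.1) + x.2 * (y.2.2.1 + r * y.2.2.2)

instance (p : ℕ) (r : ℤ) (y : ℕ × ℕ × ℕ × ℕ) : DecidablePred (dv p r y) :=
  fun x => inferInstanceAs (Decidable ((p : ℤ) ∣ _))

/-- AVG: the average over `SL p` of the divisibility condition -/
def S_AVG : Prop := ∀ (p : ℕ) (r : ℤ) (x : ℕ × ℕ), p.Prime → ¬ (p ∣ x.1 ∧ p ∣ x.2) →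
  (∑ y ∈ SL p, if dv p r y x then (1 : ℝ) else 0) / ((SL p).card : ℝ) = 1 / ((p : ℝ) + 1)

/-- CNT: few pairs of determinant `p` with the divisibility condition in a box -/
def S_BDD : Prop := ∀ C₀ : ℕ, ∃ B : ℕ, ∀ (Q p : ℕ) (r : ℤ) (y : ℕ × ℕ × ℕ × ℕ) (R : ℕ), p ∈ PQ Q →
  R ^ 2 ≤ C₀ * Q → y ∈ SL p →
  (((range (R + 1) ×ˢ range (R + 1)) ×ˢ (range (R + 1) ×ˢ range (R + 1))).filter
    (fun q => cd q.1 q.2 = p ∧ dv p r y q.1 ∧ dv p r y q.2)).card ≤ B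

/-- MAIN: the logarithmic average of `AA` is small -/
def S_MAIN : Prop := ∀ (j : ℕ) (s₁ s₂ s₃ s₄ : ℝ), 0 < s₁ → s₁ < s₂ → s₂ ≤ 1 → 0 < s₃ → s₃ < s₄ →
  s₄ ≤ 1 → ∀ ε : ℝ, 0 < ε → ∃ N₀ : ℕ, ∀ N : ℕ, N₀ ≤ N →
    |∑ X ∈ Icc 1 N, 1 / (X : ℝ) ^ 2 * AA j s₁ s₂ s₃ s₄ X| ≤ ε * Real.log N

end Pool.Agent.W78.EC
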