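import Pool.Agent.W78.EC.Defs2
import Pool.Agent.W84.FP.Defs

/-!
Project EC (helper78): the Matomaki-Radziwill theorem with a general radial weight. Statements.
-/

set_option autoImplicit false

namespace Pool.Agent.W78.EC

open Finset Filter
open Pool.Agent.H376R2.MR
open Pool.Agent.W78.GA
open Pool.Agent.W84.FP (Tw PF)

/-- `∑_{z primitive} F(z) wt(log(N z/Y))/N z (z/|z|)^k` -/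
noncomputable def GFw {t c : ℤ} (wt : ℝ → ℝ) (F : Qd t c → ℤ) (Y : ℝ) (k : ℤ) : ℂ :=
  DPG (pball t c (Real.exp 1 * Y))
    (fun z => (F z : ℂ) * ((wt (Real.log (nm z) - Real.log Y) / nm z : ℝ) : ℂ)) k

/-- DECW: the decomposition, compare `W84.FP.S_DECF` -/
def S_DECW (t c : ℤ) : Prop := ∀ (Λ : ℝ) (wt : ℝ → ℝ), Rw Λ wt →
  ∀ (Ap Bp M : ℕ → Prop) (E : ℕ) (ρ : ℕ → ℤ) (ϖ : ℕ → Qd t c),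
  Ele t c Ap Bp M E ρ ϖ → ∀ F : Qd t c → ℤ, Tw M ϖ F →
  ∃ C : ℝ, 0 < C ∧ ∀ H v₀ v₁ : ℕ, 1 ≤ H → H ≤ v₀ →
    1 ≤ ∑ v ∈ Ico v₀ v₁, mE M H v → ∀ Y : ℝ, Real.exp (4 * (v₁ : ℝ) / H) ≤ Y →
    ∃ (s : Finset (Qd t c)) (f : Qd t c → ℂ), (∀ z ∈ s, prim z ∧ (nm z : ℝ) ≤ Real.exp 2 * Y) ∧
      (∀ k : ℤ, GFw wt F Y k = -(1 / ((∑ v ∈ Ico v₀ v₁, mE M H v : ℝ) : ℂ)) *
        ∑ v ∈ Ico v₀ v₁, PF M ϖ H v k * GFw wt F (Y * Real.exp (-((v : ℝ) / H))) k + DPG s f k) ∧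
      Y * ∑ z ∈ s, ‖f z‖ ^ 2 ≤ C * (1 / (∑ v ∈ Ico v₀ v₁, mE M H v) + 1 / (H : ℝ) ^ 2)

/-- MOM0W: the mean values of `GFw` -/
def S_MOM0W (t c : ℤ) : Prop := ∀ (Λ : ℝ) (wt : ℝ → ℝ), Rw Λ wt →
  ∀ F : Qd t c → ℤ, (∀ z, |F z| ≤ 1) →
  ∃ C : ℝ, 0 < C ∧ ∀ (K : ℕ) (Z : ℝ), 3 ≤ Z → 1 ≤ K →
    ∑ k ∈ FK K, ‖GFw wt F Z k‖ ^ 2 ≤ C * (1 + (K : ℝ) / Z)

/-- MOMW: mixed moments -/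
def S_MOMW (t c : ℤ) : Prop := ∀ (Λ : ℝ) (wt : ℝ → ℝ), Rw Λ wt →
  ∀ (Ap Bp M : ℕ → Prop) (E : ℕ) (ρ : ℕ → ℤ) (ϖ : ℕ → Qd t c),
  Ele t c Ap Bp M E ρ ϖ → ∀ F : Qd t c → ℤ, (∀ z, |F z| ≤ 1) →
  ∃ C : ℝ, 1 ≤ C ∧ ∀ (H r ℓ K : ℕ) (Z : ℝ), 1 ≤ H → 3 ≤ Z → 1 ≤ K →
    (K : ℝ) ≤ Z * Real.exp ((r : ℝ) * ℓ / H) →
    ∑ k ∈ FK K, ‖PF M ϖ H r k ^ ℓ * GFw wt F Z k‖ ^ 2 ≤ C ^ (ℓ + 1) * (ℓ.factorial : ℝ) ^ 8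

end Pool.Agent.W78.EC
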