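import Pool.Agent.W78.EC.Defs3
import Pool.Agent.W78.EC.Defs4
import Pool.Agent.W78.EC.Fix5
import Pool.Agent.W930.EC.Theta
import Pool.Agent.W85.EC.LCon
import Pool.Agent.W816.EC.Lnv
import Pool.Agent.W816.EC.Lmean
import Pool.Agent.W605.EC.P5
import Pool.Agent.W790.EC.MRWAll
import Pool.Agent.W991.EC.MW0
import Pool.Agent.W883.EC.M5b
import Pool.Agent.W762.EC.Swc
import Pool.Agent.W154.EC.LS4
import Pool.Agent.W333.EC.LsvD
import Pool.Agent.W52.EC.Abel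
import Pool.Agent.W335.EC.Gvl
import Pool.Agent.W395.EC.B6
import Pool.Agent.W935.EC.GG0
import Pool.Agent.W683.EC.JB
import Pool.Agent.W554.EC.BT
import Pool.Agent.W212.EC.CE
import Pool.Agent.W52.EC.Tup
import Pool.Agent.W327.EC.Code
import Pool.Agent.W721.EC.DV
import Pool.Agent.W174.EC.Tree
import Pool.Agent.W899.EC.Ecnt
import Pool.Agent.W899.EC.Pcnt
import Pool.Agent.W409.EC.Dcp
import Pool.Agent.W78.EC.Dil2
import Pool.Agent.W125.EC.Btm
import Pool.Agent.W721.EC.Loss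
import Pool.Agent.W714.EC.Bij
import Pool.Agent.W499.EC.F4
import Pool.Agent.W368.EC.Scnt
import Pool.Agent.W305.EC.Corr
import Pool.Agent.W410.EC.SLOW
import Pool.Agent.W681.EC.FIN1
import Pool.Agent.W327.EC.Final

/-!
Project EC (helper78): assembly.
-/

set_option autoImplicit false

namespace Pool.Agent.W78.EC

/-- the prime number theorem for residue classes -/
theorem pntgAll : S_PNTG :=
  Pool.Agent.W605.EC.P5.pntg (Pool.Agent.W816.EC.lmean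
    (Pool.Agent.W85.EC.lcon Pool.Agent.W930.EC.theta)
    (Pool.Agent.W816.EC.lnv (Pool.Agent.W85.EC.lcon Pool.Agent.W930.EC.theta)))

/-- most thin sectors -/
theorem mrsAll : S_MRS :=
  Pool.Agent.W883.EC.mrs Pool.Agent.W790.EC.mrw (Pool.Agent.W991.EC.mw0 pntgAll)

theorem lsvAll : S_LSV := Pool.Agent.W333.EC.lsv Pool.Agent.W762.EC.swc Pool.Agent.W154.EC.ls4

theorem gg0All : S_GG0 :=
  Pool.Agent.W935.EC.gg0 lsvAll Pool.Agent.W52.EC.abel Pool.Agent.W52.EC.psid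
    Pool.Agent.W335.EC.gvl Pool.Agent.W395.EC.mult Pool.Agent.W395.EC.dtb

theorem btmAll : S_BTM :=
  Pool.Agent.W125.EC.btm mrsAll Pool.Agent.W683.EC.jb Pool.Agent.W683.EC.jv
    Pool.Agent.W395.EC.ln Pool.Agent.W395.EC.dtb

theorem btAll : S_BT :=
  Pool.Agent.W554.EC.bt gg0All btmAll Pool.Agent.W395.EC.ln Pool.Agent.W395.EC.dtb

theorem dcpAll : S_DCP :=
  Pool.Agent.W409.EC.dcp Pool.Agent.W212.EC.ce (Pool.Agent.W52.EC.tup Pool.Agent.W212.EC.ce)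
    (Pool.Agent.W327.EC.code Pool.Agent.W212.EC.ce) Pool.Agent.W721.ECV.dv
    Pool.Agent.W174.EC.tree Pool.Agent.W899.EC.ecnt Pool.Agent.W899.EC.pcnt Pool.Agent.W899.EC.resc

theorem mainAll : S_MAIN :=
  Fx.main_of btAll dcpAll Dl.dil Pool.Agent.W721.ECL.loss
    Pool.Agent.W714.EC.bij Pool.Agent.W174.EC.ptsT Pool.Agent.W499.EC.avg
    Pool.Agent.W499.EC.bdd Pool.Agent.W899.EC.pcnt Pool.Agent.W899.EC.ecnt
    Pool.Agent.W395.EC.dtb

theorem finalAll : S_FINAL :=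
  Pool.Agent.W327.ECFinal.final
    (Pool.Agent.W681.EC.fin1 mainAll Pool.Agent.W305.EC.corr Pool.Agent.W368.EC.scnt)
    (Pool.Agent.W410.EC.slow Pool.Agent.W899.EC.ecnt Pool.Agent.W305.EC.corr)
    Pool.Agent.W368.EC.scnt

open scoped Classical in
theorem slowAll : ∃ c : ℝ, 0 < c ∧ ∀ N : ℕ, 2 ≤ N → c * Real.log N ≤
    ∑ p ∈ (Finset.Icc 1 N ×ˢ Finset.Icc 1 N).filter
      (fun p : ℕ × ℕ => ∃ n : ℕ, p.1 * p.2 = n ^ 2 + 1), 1 / (max p.1 p.2 : ℝ) :=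
  Pool.Agent.W410.EC.slow Pool.Agent.W899.EC.ecnt Pool.Agent.W305.EC.corr

end Pool.Agent.W78.EC
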