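import Pool.Agent.W540.EC.A2
import Pool.Agent.W721.EC.Loss

/-!
Project EC, assembly, part 3: the estimate for fixed `X`.
-/

set_option autoImplicit false

namespace Pool.Agent.W78.EC.Fx

open Finset Filter
open Pool.Agent.H376R2.MR
open Pool.Agent.W78.GA
open Pool.Agent.W78.EC
open Pool.Agent.W540.EC

/-- a prime `1 mod 4` is the norm of an element -/
theorem exists_pi {p : ℕ} (hp : p.Prime) (h4 : p % 4 = 1) :
    ∃ (π : Gi) (r : ℤ), nm π = p ∧ lat p r π ∧ (p : ℤ) ∣ r ^ 2 + 1 := by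
  have := Fact.mk hp
  obtain ⟨a, b, hab⟩ := Nat.Prime.sq_add_sq (p := p) (by omega)
  have hb : ¬ p ∣ b := by
    intro hb
    have h1 : p ∣ a ^ 2 := by
      have h2 : p ∣ a ^ 2 + b ^ 2 := by rw [hab]
      exact (Nat.dvd_add_left (hb.pow two_ne_zero)).1 h2
    have h3 : p ∣ a := hp.dvd_of_dvd_pow h1
    obtain ⟨x, hx⟩ := h3
    obtain ⟨y, hy⟩ := hb
    have h5 : p ^ 2 ∣ p := ⟨x ^ 2 + y ^ 2, by
      nth_rewrite 1 [← hab]
      rw [hx, hy]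
      ring⟩
    have h6 := Nat.le_of_dvd hp.pos h5
    have h7 := hp.two_le
    nlinarith
  have hc : IsCoprime (b : ℤ) (p : ℤ) :=
    Nat.isCoprime_iff_coprime.2 ((Nat.Prime.coprime_iff_not_dvd hp).2 hb).symm
  obtain ⟨x, y, hxy⟩ := hc
  have hab' : (a : ℤ) ^ 2 + (b : ℤ) ^ 2 = p := by exact_mod_cast hab
  refine ⟨⟨a, b⟩, -a * x, ?_, ?_, ?_⟩
  · have h := nm_cast hD (⟨a, b⟩ : Gi)
    have h2 : (nm (⟨a, b⟩ : Gi) : ℤ) = p := by
      rw [h]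
      simp only
      linear_combination hab'
    exact_mod_cast h2
  · refine ⟨a * y, ?_⟩
    simp only
    linear_combination (-(a : ℤ)) * hxy
  · refine ⟨x ^ 2 + (2 * x * b * y + y ^ 2 * p), ?_⟩
    linear_combination (-(x * b + y * p + 1)) * hxy + x ^ 2 * hab'

/-- the powers of the Liouville function in a window -/
noncomputable def uu (j : ℕ) (s₁ s₂ X : ℝ) (z : Gi) : ℝ :=
  if s₁ * X < (nm z : ℝ) ∧ (nm z : ℝ) ≤ s₂ * X then (gl z : ℝ) ^ j else 0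

theorem gl_tri (z : Gi) (j : ℕ) : (gl z : ℝ) ^ j = 1 ∨ (gl z : ℝ) ^ j = -1 := by
  rcases gl_eq z with h | h
  · left; rw [h]; simp
  · rw [h]
    push_cast
    exact neg_one_pow_eq_or ℝ j

theorem uu_tri (j : ℕ) (s₁ s₂ X : ℝ) (z : Gi) :
    uu j s₁ s₂ X z = 0 ∨ uu j s₁ s₂ X z = 1 ∨ uu j s₁ s₂ X z = -1 := by
  unfold uu
  split_ifs
  · exact Or.inr (gl_tri z j)
  · exact Or.inl rfl

theorem uu_mul {p : ℕ} (hp : p.Prime) {π : Gi} (hπ : nm π = p) (j : ℕ) {s₁ s₂ X : ℝ}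
    (h0 : 0 ≤ s₁ * X) (z : Gi) : uu j s₁ s₂ X (π * z) =
      (-1) ^ j * if s₁ * (X / p) < (nm z : ℝ) ∧ (nm z : ℝ) ≤ s₂ * (X / p) then (gl z : ℝ) ^ j else 0 := by
  have hp0 : (0 : ℝ) < p := by exact_mod_cast hp.pos
  have h1 : (nm (π * z) : ℝ) = p * nm z := by
    rw [nm_mul, hπ]
    push_cast
    ring
  have h2 : s₁ * X < (nm (π * z) : ℝ) ↔ s₁ * (X / p) < (nm z : ℝ) := by
    rw [h1, ← mul_div_assoc, div_lt_iff₀ hp0, mul_comm (p : ℝ)]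
  have h3 : (nm (π * z) : ℝ) ≤ s₂ * X ↔ (nm z : ℝ) ≤ s₂ * (X / p) := by
    rw [h1, ← mul_div_assoc, le_div_iff₀ hp0, mul_comm (p : ℝ)]
  unfold uu
  by_cases hc : s₁ * (X / p) < (nm z : ℝ) ∧ (nm z : ℝ) ≤ s₂ * (X / p)
  · rw [if_pos (by rw [h2, h3]; exact hc), if_pos hc]
    have hz : z ≠ 0 := by
      rintro rfl
      have := hc.1
      rw [nm_zero] at this
      have h4 : 0 ≤ s₁ * (X / p) := by
        rw [← mul_div_assoc]
        positivity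
      push_cast at this
      linarith
    have hπ0 : π ≠ 0 := by
      rintro rfl
      rw [nm_zero] at hπ
      exact hp.ne_zero hπ.symm
    have h5 : gl (π * z) = - gl z := by
      rw [gl_mul hD hπ0 hz]
      have : gl π = -1 := by
        unfold gl
        rw [hπ]
        exact lam_prime hp
      rw [this]
      ring
    rw [h5]
    push_cast
    rw [neg_pow]
  · rw [if_neg (by rw [h2, h3]; exact hc), if_neg hc, mul_zero]

theorem AA_eq {p : ℕ} (hp : p.Prime) {π : Gi} (hπ : nm π = p) (j : ℕ) {s₁ s₂ s₃ s₄ X : ℝ}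
    (h0 : 0 ≤ s₁ * X) (h0' : 0 ≤ s₃ * X) : AA j s₁ s₂ s₃ s₄ (X / p) = (-1) ^ (j + 1) *
      ∑ e ∈ (dedge 0 1 (X / p)).filter (fun e => 0 < ip e.1 e.2),
        uu j s₁ s₂ X (π * e.1) * uu 1 s₃ s₄ X (π * e.2) := by
  classical
  have hfil : (dedge 0 1 (X / p)).filter (fun e => 0 < ip e.1 e.2 ∧ s₁ * (X / p) < (nm e.1 : ℝ) ∧
      (nm e.1 : ℝ) ≤ s₂ * (X / p) ∧ s₃ * (X / p) < (nm e.2 : ℝ) ∧ (nm e.2 : ℝ) ≤ s₄ * (X / p)) =
      ((dedge 0 1 (X / p)).filter (fun e => 0 < ip e.1 e.2)).filter (fun e =>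
        s₁ * (X / p) < (nm e.1 : ℝ) ∧ (nm e.1 : ℝ) ≤ s₂ * (X / p) ∧ s₃ * (X / p) < (nm e.2 : ℝ) ∧
        (nm e.2 : ℝ) ≤ s₄ * (X / p)) := by
    rw [filter_filter]
  have hAA : AA j s₁ s₂ s₃ s₄ (X / p) = ∑ e ∈ ((dedge 0 1 (X / p)).filter
      (fun e => 0 < ip e.1 e.2)).filter (fun e =>
        s₁ * (X / p) < (nm e.1 : ℝ) ∧ (nm e.1 : ℝ) ≤ s₂ * (X / p) ∧ s₃ * (X / p) < (nm e.2 : ℝ) ∧
        (nm e.2 : ℝ) ≤ s₄ * (X / p)), (gl e.1 : ℝ) ^ j * gl e.2 := by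
    rw [← hfil]
    unfold AA
    exact sum_congr (by congr) fun _ _ => rfl
  rw [hAA, sum_filter, mul_sum]
  refine sum_congr rfl fun e _ => ?_
  rw [uu_mul hp hπ j h0, uu_mul hp hπ 1 h0']
  have hsq : ((-1 : ℝ)) ^ (j + 1) * (-1) ^ j * (-1) ^ 1 = 1 := by
    rw [← pow_add, ← pow_add]
    exact Even.neg_one_pow ⟨j + 1, by ring⟩
  by_cases h1 : s₁ * (X / p) < (nm e.1 : ℝ) ∧ (nm e.1 : ℝ) ≤ s₂ * (X / p) <;>
  by_cases h2 : s₃ * (X / p) < (nm e.2 : ℝ) ∧ (nm e.2 : ℝ) ≤ s₄ * (X / p)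
  · rw [if_pos ⟨h1.1, h1.2, h2.1, h2.2⟩, if_pos h1, if_pos h2, pow_one (gl e.2 : ℝ)]
    linear_combination (-((gl e.1 : ℝ) ^ j * gl e.2)) * hsq
  · rw [if_neg (fun h => h2 ⟨h.2.2.1, h.2.2.2⟩), if_neg h2]
    simp
  · rw [if_neg (fun h => h1 ⟨h.1, h.2.1⟩), if_neg h1]
    simp
  · rw [if_neg (fun h => h1 ⟨h.1, h.2.1⟩), if_neg h1]
    simp

theorem ip_mul (q v w : Gi) : ip (q * v) (q * w) = nm q * ip v w := by
  rw [Pool.Agent.W714.EC.nmZ]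
  unfold ip
  simp only [QuadraticAlgebra.re_mul, QuadraticAlgebra.im_mul]
  ring

/-- pairs in a cone over a good edge have positive inner product -/
theorem InG_ip {K : ℕ} {κ : ℝ} {Q : ℕ} {X : ℝ} {π : Gi} (hKQ : (0 : ℝ) < K * Q)
    (hX : 2 * (K * Q : ℝ) ≤ X) {e : Gi × Gi} (h : InG K κ Q X π e) : 0 < ip e.1 e.2 := by
  obtain ⟨f, hf, h1, h2⟩ := h
  have hfe : f ∈ edge 0 1 (X / (K * Q)) := (mem_filter.1 hf).1
  have hY : 2 ≤ X / (K * Q) := by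
    rw [le_div_iff₀ hKQ]
    exact hX
  have hip := Pool.Agent.W721.ECL.edge_ip hY hfe
  have hdt := (Pool.Agent.W714.EC.mem_edge.1 hfe).2.1
  have h1' := (Pool.Agent.W714.EC.mem_cone.1 h1).2
  have h2' := (Pool.Agent.W714.EC.mem_cone.1 h2).2
  set v := π * e.1
  set w := π * e.2
  have key : ip v w = dt v f.2 * dt w f.2 * nm f.1 + dt f.1 v * dt f.1 w * nm f.2 +
      (dt v f.2 * dt f.1 w + dt f.1 v * dt w f.2) * ip f.1 f.2 := by
    have hn1 := Pool.Agent.W714.EC.nmZ f.1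
    have hn2 := Pool.Agent.W714.EC.nmZ f.2
    rw [hn1, hn2]
    have h := hdt
    unfold dt at h
    unfold ip dt
    linear_combination (-(v.re * w.re + 0 * v.im * w.re + 1 * v.im * w.im) *
      (f.1.re * f.2.im - f.1.im * f.2.re + 1)) * h
  have hpos : 0 < ip v w := by
    rw [key]
    have a1 := h1'.1
    have a2 := h1'.2
    have b1 := h2'.1
    have b2 := h2'.2
    have n1 : (0 : ℤ) ≤ nm f.1 := Int.natCast_nonneg _
    have n2 : (0 : ℤ) ≤ nm f.2 := Int.natCast_nonneg _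
    have c1 : 0 ≤ dt v f.2 * dt w f.2 * nm f.1 := by positivity
    have c2 : 0 ≤ dt f.1 v * dt f.1 w * nm f.2 := by positivity
    have c3 : 0 < (dt v f.2 * dt f.1 w + dt f.1 v * dt w f.2) * ip f.1 f.2 := by
      have : 0 < ip f.1 f.2 := by omega
      positivity
    linarith
  rw [ip_mul] at hpos
  exact (pos_iff_pos_of_mul_pos hpos).1 (by
    rcases Nat.eq_zero_or_pos (nm π) with h0 | h0
    · rw [h0] at hpos
      simp at hpos
    · exact_mod_cast h0)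

open scoped Classical in
theorem AA_split {p : ℕ} (hp : p.Prime) {π : Gi} (hπ : nm π = p) (j : ℕ)
    {s s₁ s₂ s₃ s₄ X : ℝ} (h0 : 0 ≤ s₁ * X) (h0' : 0 ≤ s₃ * X) (hs1 : s * X ≤ s₁ * X)
    (hs3 : s * X ≤ s₃ * X) {K : ℕ} {κ : ℝ} {Q : ℕ} {δ : ℝ}
    (hG : ∀ e, InG K κ Q X π e → 0 < ip e.1 e.2)
    (hL : (((dedge 0 1 (X / p)).filter (fun e => 0 < ip e.1 e.2 ∧ s * (X / p) < (nm e.1 : ℝ) ∧
      s * (X / p) < (nm e.2 : ℝ) ∧ ¬ InG K κ Q X π e)).card : ℝ) ≤ δ) :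
    |(-1) ^ (j + 1) * AA j s₁ s₂ s₃ s₄ (X / p) -
      ∑ e ∈ (dedge 0 1 (X / p)).filter (InG K κ Q X π),
        uu j s₁ s₂ X (π * e.1) * uu 1 s₃ s₄ X (π * e.2)| ≤ δ := by
  have hp0 : (0 : ℝ) < p := by exact_mod_cast hp.pos
  have hII : (dedge 0 1 (X / p)).filter (InG K κ Q X π) =
      ((dedge 0 1 (X / p)).filter (fun e => 0 < ip e.1 e.2)).filter (InG K κ Q X π) := by
    rw [filter_filter]
    exact filter_congr fun e _ => ⟨fun h => ⟨hG e h, h⟩, fun h => h.2⟩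
  rw [hII, AA_eq hp hπ j h0 h0', ← mul_assoc, ← pow_add, Even.neg_one_pow ⟨j + 1, rfl⟩, one_mul,
    ← sum_filter_add_sum_filter_not ((dedge 0 1 (X / p)).filter (fun e => 0 < ip e.1 e.2))
      (InG K κ Q X π), add_sub_cancel_left]
  refine (abs_sum_le_sum_abs _ _).trans (le_trans ?_ hL)
  have h1 : ∀ e ∈ ((dedge 0 1 (X / p)).filter (fun e => 0 < ip e.1 e.2)).filter
      (fun e => ¬ InG K κ Q X π e),
      |uu j s₁ s₂ X (π * e.1) * uu 1 s₃ s₄ X (π * e.2)| ≤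
      if s * (X / p) < (nm e.1 : ℝ) ∧ s * (X / p) < (nm e.2 : ℝ) then (1 : ℝ) else 0 := by
    intro e _
    split_ifs with hc
    · exact tri_mul (uu_tri _ _ _ _ _) (uu_tri _ _ _ _ _)
    · rw [uu_mul hp hπ j h0, uu_mul hp hπ 1 h0']
      have ha : s * (X / p) ≤ s₁ * (X / p) := by
        rw [← mul_div_assoc, ← mul_div_assoc]
        exact div_le_div_of_nonneg_right hs1 hp0.le
      have hb : s * (X / p) ≤ s₃ * (X / p) := by
        rw [← mul_div_assoc, ← mul_div_assoc]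
        exact div_le_div_of_nonneg_right hs3 hp0.le
      by_cases h2 : s₁ * (X / p) < (nm e.1 : ℝ) ∧ (nm e.1 : ℝ) ≤ s₂ * (X / p)
      · have h3 : ¬ (s₃ * (X / p) < (nm e.2 : ℝ) ∧ (nm e.2 : ℝ) ≤ s₄ * (X / p)) := by
          intro h3
          exact hc ⟨by linarith [h2.1], by linarith [h3.1]⟩
        rw [if_neg h3]
        simp
      · rw [if_neg h2]
        simp
  refine (sum_le_sum h1).trans ?_
  rw [sum_boole, filter_filter, filter_filter]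
  refine le_of_eq ?_
  congr 2
  refine filter_congr fun e _ => ?_
  tauto

end Pool.Agent.W78.EC.Fx
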