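import Pool.Agent.W78.EC.Fix3

/-!
Project EC, assembly, part 4: the estimate for fixed `X`, continued.
-/

set_option autoImplicit false

namespace Pool.Agent.W78.EC.Fx

open Finset Filter
open Pool.Agent.H376R2.MR
open Pool.Agent.W78.GA
open Pool.Agent.W78.EC
open Pool.Agent.W540.EC

theorem th_sum (Q : ℕ) (d : ℤ) :
    ∑ p ∈ PQ Q, Real.log p * (if d = p then (1 : ℝ) else 0) = th Q d := by
  unfold th
  split_ifs with h
  · rw [sum_eq_single d.toNat]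
    · have h1 : (d.toNat : ℤ) = d := Int.toNat_of_nonneg h.1.le
      rw [if_pos h1.symm, mul_one]
      congr 1
      exact_mod_cast congrArg (fun x : ℤ => (x : ℝ)) h1
    · intro p _ hne
      rw [if_neg, mul_zero]
      intro hd
      exact hne (by omega)
    · intro hn
      exact absurd h.2 hn
  · refine sum_eq_zero fun p hp => ?_
    rw [if_neg, mul_zero]
    intro hd
    apply h
    have hpp := (PQ_mem hp).2.2.1.pos
    refine ⟨by omega, ?_⟩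
    have : d.toNat = p := by omega
    rw [this]
    exact hp

theorem log_nonneg_PQ {Q p : ℕ} (hp : p ∈ PQ Q) : 0 ≤ Real.log p :=
  Real.log_natCast_nonneg p

section

variable {K : ℕ} {κ : ℝ} {Q : ℕ} {X : ℝ} {B C₀ : ℕ}

/-- the value at the residues -/
theorem ZZ_res (h6 : S_PTS) (h11 : S_DTB) {u v : Gi → ℝ} (hu : ∀ z, u z = 0 ∨ u z = 1 ∨ u z = -1)
    (hv : ∀ z, v z = 0 ∨ v z = 1 ∨ v z = -1) (hK : 1 ≤ K)
    (hκ : 0 < κ) (hQ : (K : ℝ) / κ < Q) (hX : 2 * (K * Q : ℝ) ≤ X) {e : Gi × Gi}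
    (he : e ∈ good K κ Q X) (hC₀ : (K : ℝ) / κ ≤ C₀)
    (hB : ∀ (Q p : ℕ) (r : ℤ) (y : ℕ × ℕ × ℕ × ℕ) (R : ℕ), p ∈ PQ Q →
      R ^ 2 ≤ C₀ * Q → y ∈ SL p →
      (((range (R + 1) ×ˢ range (R + 1)) ×ˢ (range (R + 1) ×ˢ range (R + 1))).filter
        (fun q => cd q.1 q.2 = p ∧ dv p r y q.1 ∧ dv p r y q.2)).card ≤ B) {p : ℕ} (hp : p ∈ PQ Q)
    (r : ℤ) : ZZ B Q p r (TT (lb u v) X e) (res p e) = ((p : ℝ) + 1) / (2 * Q) *
      ∑ z ∈ cone X e.1 e.2, ∑ w ∈ cone X e.1 e.2,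
        if dt z w = p ∧ lat p r z then u z * v w else 0 := by
  have hK0 : (0 : ℝ) < K := by exact_mod_cast hK
  have hK1 : (1 : ℝ) ≤ K := by exact_mod_cast hK
  have hQ0 : (0 : ℝ) < Q := lt_trans (div_pos hK0 hκ) hQ
  have hQ1 : 1 ≤ Q := by exact_mod_cast hQ0
  have hQ1' : (1 : ℝ) ≤ Q := by exact_mod_cast hQ1
  have hKQ : (0 : ℝ) < K * Q := by positivity
  have hY : 2 ≤ X / (K * Q) := by
    rw [le_div_iff₀ hKQ]
    exact hX
  have hYX : X / (K * Q) ≤ X := by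
    have hX0 : 0 ≤ X := le_trans (by positivity) hX
    exact div_le_self hX0 (by nlinarith)
  have hdt := (good_edge he).2
  have hp0 := (PQ_mem hp).2.2.1.pos
  unfold ZZ
  rw [if_pos (Z0_bound h6 h11 hu hv hK hκ hQ hX he hC₀ hB hp r (res_mem hdt hp0)),
    Z0_eq h6 hu hv hY hYX (good_edge he).1 Q p r (res p e)]
  congr 1
  refine sum_congr rfl fun z hz => sum_congr rfl fun w _ => ?_
  refine if_congr ?_ rfl rfl
  rw [dv_res hdt hp0 r hz]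

/-- the average -/
theorem ZZ_av (h6 : S_PTS) (h7 : S_AVG) (h11 : S_DTB) {u v : Gi → ℝ}
    (hu : ∀ z, u z = 0 ∨ u z = 1 ∨ u z = -1)
    (hv : ∀ z, v z = 0 ∨ v z = 1 ∨ v z = -1) (hK : 1 ≤ K)
    (hκ : 0 < κ) (hQ : (K : ℝ) / κ < Q) (hX : 2 * (K * Q : ℝ) ≤ X) {e : Gi × Gi}
    (he : e ∈ good K κ Q X) (hC₀ : (K : ℝ) / κ ≤ C₀)
    (hB : ∀ (Q p : ℕ) (r : ℤ) (y : ℕ × ℕ × ℕ × ℕ) (R : ℕ), p ∈ PQ Q →
      R ^ 2 ≤ C₀ * Q → y ∈ SL p →
      (((range (R + 1) ×ˢ range (R + 1)) ×ˢ (range (R + 1) ×ˢ range (R + 1))).filter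
        (fun q => cd q.1 q.2 = p ∧ dv p r y q.1 ∧ dv p r y q.2)).card ≤ B) {p : ℕ} (hp : p ∈ PQ Q)
    (r : ℤ) : av p (ZZ B Q p r) (TT (lb u v) X e) = 1 / (2 * Q) *
      ∑ z ∈ cone X e.1 e.2, ∑ w ∈ cone X e.1 e.2, if dt z w = p then u z * v w else 0 := by
  unfold av
  rw [← Z0_avg h6 h7 h11 hu hv hK hκ hQ hX he hp r]
  congr 1
  refine sum_congr rfl fun y hy => ?_
  unfold ZZ
  rw [if_pos (Z0_bound h6 h11 hu hv hK hκ hQ hX he hC₀ hB hp r hy)]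

/-- sum over the window -/
theorem sum_cw (s₃ s₄ : ℝ) (a b : Gi) (f : Gi → ℝ) :
    ∑ w ∈ cone X a b, uu 1 s₃ s₄ X w * f w = ∑ w ∈ cw X s₃ s₄ a b, (gl w : ℝ) * f w := by
  unfold cw
  rw [sum_filter]
  refine sum_congr rfl fun w _ => ?_
  unfold uu
  split_ifs with h
  · rw [pow_one]
  · rw [zero_mul]

open scoped Classical in
/-- the estimate for fixed `X` -/
theorem per_X (h5 : S_BIJ) (h6 : S_PTS) (h7 : S_AVG) (h11 : S_DTB) (j : ℕ) {s s₁ s₂ s₃ s₄ : ℝ}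
    (hs₁ : 0 < s₁) (hs₃ : 0 < s₃) (hs1 : s ≤ s₁) (hs3 : s ≤ s₃) (hK : 1 ≤ K)
    (hκ : 0 < κ) (hQ : (K : ℝ) / κ < Q) (hX : 2 * (K * Q : ℝ) ≤ X) (hC₀ : (K : ℝ) / κ ≤ C₀)
    (hB : ∀ (Q p : ℕ) (r : ℤ) (y : ℕ × ℕ × ℕ × ℕ) (R : ℕ), p ∈ PQ Q →
      R ^ 2 ≤ C₀ * Q → y ∈ SL p →
      (((range (R + 1) ×ˢ range (R + 1)) ×ˢ (range (R + 1) ×ˢ range (R + 1))).filter
        (fun q => cd q.1 q.2 = p ∧ dv p r y q.1 ∧ dv p r y q.2)).card ≤ B)
    (ϖ : ℕ → Gi) (rr : ℕ → ℤ) (hϖ : ∀ p ∈ PQ Q, nm (ϖ p) = p ∧ lat p (rr p) (ϖ p) ∧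
      (p : ℤ) ∣ rr p ^ 2 + 1) {ε₃ ε' : ℝ}
    (hBT : ∀ α : Gi → ℝ, (∀ z, |α z| ≤ 1) → (∀ z, α z ≠ 0 → s₁ * X < (nm z : ℝ)) →
      |∑ e ∈ good K κ Q X, ∑ v ∈ cone X e.1 e.2, ∑ w ∈ cw X s₃ s₄ e.1 e.2,
        α v * gl w * th Q (dt v w)| ≤ ε₃ * X * Q) (hε' : 0 ≤ ε')
    (hL : ∀ p ∈ PQ Q, ∀ π : Gi, nm π = p →
      (((dedge 0 1 (X / p)).filter (fun e => 0 < ip e.1 e.2 ∧ s * (X / p) < (nm e.1 : ℝ) ∧
        s * (X / p) < (nm e.2 : ℝ) ∧ ¬ InG K κ Q X π e)).card : ℝ) ≤ ε' * (X / p)) :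
    |∑ p ∈ PQ Q, Real.log p * ((p : ℝ) + 1) * AA j s₁ s₂ s₃ s₄ (X / p)| ≤
      2 * Q * ∑ e ∈ edge 0 1 (X / (K * Q)), |∑ p ∈ PQ Q, Real.log p *
        (ZZ B Q p (rr p) (TT (lb (uu j s₁ s₂ X) (uu 1 s₃ s₄ X)) X e) (res p e) -
          av p (ZZ B Q p (rr p)) (TT (lb (uu j s₁ s₂ X) (uu 1 s₃ s₄ X)) X e))| +
        (ε₃ * X * Q + 2 * ε' * X * ∑ p ∈ PQ Q, Real.log p) := by
  have hK0 : (0 : ℝ) < K := by exact_mod_cast hK
  have hK1 : (1 : ℝ) ≤ K := by exact_mod_cast hK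
  have hQ0 : (0 : ℝ) < Q := lt_trans (div_pos hK0 hκ) hQ
  have hQ1 : 1 ≤ Q := by exact_mod_cast hQ0
  have hX0 : 0 ≤ X := le_trans (by positivity) hX
  set u := uu j s₁ s₂ X with hu_def
  set v := uu 1 s₃ s₄ X with hv_def
  have hu : ∀ z, u z = 0 ∨ u z = 1 ∨ u z = -1 := uu_tri _ _ _ _
  have hv : ∀ z, v z = 0 ∨ v z = 1 ∨ v z = -1 := uu_tri _ _ _ _
  set F : ℕ → ℝ := fun p => ∑ e ∈ (dedge 0 1 (X / p)).filter (InG K κ Q X (ϖ p)),
    u (ϖ p * e.1) * v (ϖ p * e.2) with hF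
  -- step a
  have hA : ∀ p ∈ PQ Q, ((p : ℝ) + 1) * F p =
      2 * Q * ∑ e ∈ good K κ Q X, ZZ B Q p (rr p) (TT (lb u v) X e) (res p e) := by
    intro p hp
    obtain ⟨a1, a2, a3⟩ := hϖ p hp
    have h1 := h5 K κ Q X p (ϖ p) (rr p) u v hK hκ hQ1 hX hp a1 a2 a3
    rw [hF]
    simp only
    rw [← h1]
    have h2 : ∀ e ∈ good K κ Q X, ZZ B Q p (rr p) (TT (lb u v) X e) (res p e) =
        ((p : ℝ) + 1) / (2 * Q) * ∑ z ∈ cone X e.1 e.2, ∑ w ∈ cone X e.1 e.2,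
          if dt z w = p ∧ lat p (rr p) z then u z * v w else 0 := by
      intro e he
      exact ZZ_res h6 h11 hu hv hK hκ hQ hX he hC₀ hB hp (rr p)
    rw [sum_congr rfl h2, ← mul_sum, ← mul_assoc]
    congr 1
    field_simp
  -- step b
  have hBB : 2 * Q * ∑ e ∈ good K κ Q X, ∑ p ∈ PQ Q, Real.log p *
      av p (ZZ B Q p (rr p)) (TT (lb u v) X e) =
      ∑ e ∈ good K κ Q X, ∑ z ∈ cone X e.1 e.2, ∑ w ∈ cw X s₃ s₄ e.1 e.2,
        u z * gl w * th Q (dt z w) := by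
    rw [mul_sum]
    refine sum_congr rfl fun e he => ?_
    have h1 : ∀ p ∈ PQ Q, Real.log p * av p (ZZ B Q p (rr p)) (TT (lb u v) X e) =
        1 / (2 * Q) * ∑ z ∈ cone X e.1 e.2, ∑ w ∈ cone X e.1 e.2,
          (u z * v w) * (Real.log p * if dt z w = p then (1 : ℝ) else 0) := by
      intro p hp
      rw [ZZ_av h6 h7 h11 hu hv hK hκ hQ hX he hC₀ hB hp (rr p), mul_left_comm]
      congr 1
      rw [mul_sum]
      refine sum_congr rfl fun z _ => ?_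
      rw [mul_sum]
      refine sum_congr rfl fun w _ => ?_
      split_ifs <;> ring
    rw [sum_congr rfl h1, ← mul_sum, ← mul_assoc, mul_one_div_cancel (by positivity), one_mul,
      sum_comm]
    refine sum_congr rfl fun z _ => ?_
    rw [sum_comm]
    have h2 : ∀ w ∈ cone X e.1 e.2, ∑ p ∈ PQ Q, (u z * v w) *
        (Real.log p * if dt z w = p then (1 : ℝ) else 0) = v w * (u z * th Q (dt z w)) := by
      intro w _
      rw [← mul_sum, th_sum]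
      ring
    rw [sum_congr rfl h2, hv_def, sum_cw]
    refine sum_congr rfl fun w _ => ?_
    ring
  have hBT' : |∑ e ∈ good K κ Q X, ∑ z ∈ cone X e.1 e.2, ∑ w ∈ cw X s₃ s₄ e.1 e.2,
        u z * gl w * th Q (dt z w)| ≤ ε₃ * X * Q := by
    refine hBT u ?_ ?_
    · intro z
      rcases hu z with h | h | h <;> rw [h] <;> simp
    · intro z hz
      by_contra hcon
      apply hz
      rw [hu_def]
      unfold uu
      rw [if_neg (fun h => hcon h.1)]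
  -- decomposition
  have hdec : ∑ p ∈ PQ Q, Real.log p * ((p : ℝ) + 1) * F p =
      2 * Q * ∑ e ∈ good K κ Q X, ∑ p ∈ PQ Q, Real.log p *
        (ZZ B Q p (rr p) (TT (lb u v) X e) (res p e) - av p (ZZ B Q p (rr p)) (TT (lb u v) X e)) +
      2 * Q * ∑ e ∈ good K κ Q X, ∑ p ∈ PQ Q, Real.log p *
        av p (ZZ B Q p (rr p)) (TT (lb u v) X e) := by
    rw [← mul_add, ← sum_add_distrib]
    have h1 : ∀ e ∈ good K κ Q X, (∑ p ∈ PQ Q, Real.log p *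
        (ZZ B Q p (rr p) (TT (lb u v) X e) (res p e) - av p (ZZ B Q p (rr p)) (TT (lb u v) X e)) +
        ∑ p ∈ PQ Q, Real.log p * av p (ZZ B Q p (rr p)) (TT (lb u v) X e)) =
        ∑ p ∈ PQ Q, Real.log p * ZZ B Q p (rr p) (TT (lb u v) X e) (res p e) := by
      intro e _
      rw [← sum_add_distrib]
      refine sum_congr rfl fun p _ => ?_
      ring
    rw [sum_congr rfl h1, sum_comm, mul_sum]
    refine sum_congr rfl fun p hp => ?_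
    rw [mul_assoc, hA p hp, ← mul_sum]
    ring
  -- the loss
  have hloss : |(-1 : ℝ) ^ (j + 1) * ∑ p ∈ PQ Q, Real.log p * ((p : ℝ) + 1) *
      AA j s₁ s₂ s₃ s₄ (X / p) - ∑ p ∈ PQ Q, Real.log p * ((p : ℝ) + 1) * F p| ≤
      2 * ε' * X * ∑ p ∈ PQ Q, Real.log p := by
    rw [mul_sum, ← sum_sub_distrib, mul_sum]
    refine (abs_sum_le_sum_abs _ _).trans (sum_le_sum fun p hp => ?_)
    have hpp := (PQ_mem hp).2.2.1
    have hp0 : (0 : ℝ) < p := by exact_mod_cast hpp.pos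
    have hp1 : (1 : ℝ) ≤ p := by exact_mod_cast hpp.one_lt.le
    have h1 := AA_split hpp (hϖ p hp).1 j (s := s) (s₁ := s₁) (s₂ := s₂) (s₃ := s₃) (s₄ := s₄)
      (X := X) (by positivity) (by positivity) (mul_le_mul_of_nonneg_right hs1 hX0)
      (mul_le_mul_of_nonneg_right hs3 hX0) (fun e he => InG_ip (by positivity) hX he)
      (hL p hp _ (hϖ p hp).1)
    have h2 : (-1 : ℝ) ^ (j + 1) * (Real.log p * ((p : ℝ) + 1) * AA j s₁ s₂ s₃ s₄ (X / p)) -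
        Real.log p * ((p : ℝ) + 1) * F p = Real.log p * ((p : ℝ) + 1) *
        ((-1 : ℝ) ^ (j + 1) * AA j s₁ s₂ s₃ s₄ (X / p) - F p) := by ring
    rw [h2, abs_mul, abs_of_nonneg (mul_nonneg (log_nonneg_PQ hp) (by positivity))]
    calc Real.log p * ((p : ℝ) + 1) * |(-1 : ℝ) ^ (j + 1) * AA j s₁ s₂ s₃ s₄ (X / p) - F p|
        ≤ Real.log p * ((p : ℝ) + 1) * (ε' * (X / p)) :=
          mul_le_mul_of_nonneg_left h1 (mul_nonneg (log_nonneg_PQ hp) (by positivity))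
      _ = Real.log p * ε' * X * (((p : ℝ) + 1) / p) := by ring
      _ ≤ Real.log p * ε' * X * 2 := by
          refine mul_le_mul_of_nonneg_left ?_
            (mul_nonneg (mul_nonneg (log_nonneg_PQ hp) hε') hX0)
          rw [div_le_iff₀ hp0]
          linarith
      _ = 2 * ε' * X * Real.log p := by ring
  -- the sum over the good edges
  have hD : |∑ e ∈ good K κ Q X, ∑ p ∈ PQ Q, Real.log p *
        (ZZ B Q p (rr p) (TT (lb u v) X e) (res p e) - av p (ZZ B Q p (rr p)) (TT (lb u v) X e))| ≤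
      ∑ e ∈ edge 0 1 (X / (K * Q)), |∑ p ∈ PQ Q, Real.log p *
        (ZZ B Q p (rr p) (TT (lb u v) X e) (res p e) - av p (ZZ B Q p (rr p)) (TT (lb u v) X e))| := by
    refine (abs_sum_le_sum_abs _ _).trans ?_
    exact sum_le_sum_of_subset_of_nonneg (fun e he => (good_edge he).1)
      (fun _ _ _ => abs_nonneg _)
  set S := ∑ p ∈ PQ Q, Real.log p * ((p : ℝ) + 1) * AA j s₁ s₂ s₃ s₄ (X / p) with hS
  have habs : |S| = |(-1 : ℝ) ^ (j + 1) * S| := by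
    rw [abs_mul, abs_pow, abs_neg, abs_one, one_pow, one_mul]
  rw [habs]
  rw [hdec, hBB] at hloss
  set D1 := ∑ e ∈ good K κ Q X, ∑ p ∈ PQ Q, Real.log p *
        (ZZ B Q p (rr p) (TT (lb u v) X e) (res p e) - av p (ZZ B Q p (rr p)) (TT (lb u v) X e))
  set D2 := ∑ e ∈ good K κ Q X, ∑ z ∈ cone X e.1 e.2, ∑ w ∈ cw X s₃ s₄ e.1 e.2,
        u z * gl w * th Q (dt z w)
  have h3 : |2 * (Q : ℝ) * D1| = 2 * Q * |D1| := by
    rw [abs_mul, abs_of_nonneg (by positivity)]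
  have h4 : 2 * (Q : ℝ) * |D1| ≤ 2 * Q * ∑ e ∈ edge 0 1 (X / (K * Q)), |∑ p ∈ PQ Q, Real.log p *
        (ZZ B Q p (rr p) (TT (lb u v) X e) (res p e) - av p (ZZ B Q p (rr p)) (TT (lb u v) X e))| :=
    mul_le_mul_of_nonneg_left hD (by positivity)
  have h5' := abs_add_le ((-1 : ℝ) ^ (j + 1) * S - (2 * Q * D1 + D2)) (2 * Q * D1 + D2)
  have h6' := abs_add_le (2 * (Q : ℝ) * D1) D2
  rw [sub_add_cancel] at h5'
  linarith

end

end Pool.Agent.W78.EC.Fx
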